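import Pool.Agent.Helper414.HgA
import Pool.Agent.Helper414.HgSector
import Pool.Agent.Helper414.HgU
import Pool.Agent.Helper414.HgCE
import Pool.Agent.Helper414.HgD
import Pool.Agent.Helper414.HgX

set_option autoImplicit false

namespace Pool.Agent.Results.MP_c80ac4_an.LimitSet
open Pool.Agent.Helper414.HG

/-- Forcing sets for Hadamard gap series. Let `S` be a subset of the unit disc and `Lim S` the set of its limit
points on the unit circle.
(1) If `S` is forcing then `Lim S` satisfies the Sidon type criterion `Crit`.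
(2) If the closure of `S` contains `r (Lim S)` for `r` arbitrarily close to `1` (for instance if `S` is star-shaped
    with respect to `0`, or `S = ⋃ₖ rₖ K` with `K` closed, `rₖ → 1`), then `S` is forcing if and only if `Lim S`
    satisfies `Crit`.
(3) A set with finitely many points in every disc `|z| ≤ r < 1` is not forcing (so the additional assumption in (2)
    cannot be omitted).
(4) If for every `q > 1` there are `δ > 0` and `m` such that the sections `{ζ : |ζ| = 1, r ζ ∈ closure S}` satisfy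
    the Sidon inequality with constant `δ` for `q`-lacunary polynomials with exponents `≥ m`, for `r` arbitrarily
    close to `1`, then `S` is forcing.
(5) `S` is forcing if for every `η > 0` there is `r₀ > 0` such that for `r` arbitrarily close to `1` the closure
    of `S` contains `{r e^{ix} : x ∈ E}` for some non-empty set `E` (which may depend on `r`, `η`) with
    `VP E η r₀`: each point of `E` lies, for each `0 < R ≤ r₀`, in an interval `[y₀ - R, y₀ + R]` all of whose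
    points are within `η R` of `E`.
(6) There is a non-empty compact set `E` of Lebesgue measure zero such that every subset `S` of the disc whose
    closure contains `{r e^{ix} : x ∈ E}` for `r` arbitrarily close to `1` is forcing. -/
theorem result :
    (∀ S : Set ℂ, (∀ z ∈ S, ‖z‖ < 1) → Forcing S → Crit (Lim S)) ∧
    (∀ S : Set ℂ, (∀ z ∈ S, ‖z‖ < 1) →
      (∀ ρ : ℝ, ρ < 1 → ∃ r : ℝ, ρ < r ∧ r < 1 ∧ ∀ ζ ∈ Lim S, (r : ℂ) * ζ ∈ closure S) →
      (Forcing S ↔ Crit (Lim S))) ∧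
    (∀ S : Set ℂ, (∀ z ∈ S, ‖z‖ < 1) → (∀ r : ℝ, r < 1 → (S ∩ {z : ℂ | ‖z‖ ≤ r}).Finite) →
      ¬ Forcing S) ∧
    (∀ S : Set ℂ, (∀ z ∈ S, ‖z‖ < 1) →
      (∀ q : ℝ, 1 < q → ∃ δ : ℝ, 0 < δ ∧ ∃ m : ℕ, ∀ ρ : ℝ, ρ < 1 → ∃ r : ℝ, ρ < r ∧ r < 1 ∧
        SidonIneq {ζ : ℂ | ‖ζ‖ = 1 ∧ (r : ℂ) * ζ ∈ closure S} q δ m) → Forcing S) ∧
    (∀ S : Set ℂ, (∀ z ∈ S, ‖z‖ < 1) →
      (∀ η : ℝ, 0 < η → ∃ r₀ : ℝ, 0 < r₀ ∧ ∀ ρ : ℝ, ρ < 1 → ∃ r : ℝ, ρ < r ∧ r < 1 ∧
        ∃ E : Set ℝ, E.Nonempty ∧ VP E η r₀ ∧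
          ∀ x ∈ E, (r : ℂ) * Complex.exp ((x : ℂ) * Complex.I) ∈ closure S) → Forcing S) ∧
    (∃ E : Set ℝ, IsCompact E ∧ E.Nonempty ∧ MeasureTheory.volume E = 0 ∧
      ∀ S : Set ℂ, (∀ z ∈ S, ‖z‖ < 1) →
        (∀ ρ : ℝ, ρ < 1 → ∃ r : ℝ, ρ < r ∧ r < 1 ∧
          ∀ x ∈ E, (r : ℂ) * Complex.exp ((x : ℂ) * Complex.I) ∈ closure S) → Forcing S) := by
  have unb : ∀ (q : ℝ) (c : ℕ → ℂ), 1 < q → IsGap q c → (¬ Summable (fun k => ‖c k‖)) →
      ¬ ∃ M : ℝ, ∀ z : ℂ, ‖z‖ < 1 → ‖F c z‖ ≤ M := by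
    rintro q c hq hc hns ⟨M, hM⟩
    obtain ⟨r, θ, h1, h2, _, _, h5⟩ := attains q c hq hc hns ((|M| + 1 : ℝ) : ℂ) 0 1 one_pos
    have h6 := hM ((r : ℂ) * Complex.exp ((θ : ℂ) * Complex.I)) (by
      rw [norm_mul, Complex.norm_exp_ofReal_mul_I, mul_one, Complex.norm_real, Real.norm_of_nonneg h1.le]
      exact h2)
    rw [h5, Complex.norm_real, Real.norm_of_nonneg (by positivity)] at h6
    linarith [le_abs_self M]
  have nec : ∀ S : Set ℂ, (∀ z ∈ S, ‖z‖ < 1) → Forcing S → Crit (Lim S) := by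
    intro S hS hF
    by_contra hcrit
    obtain ⟨q, c, hq, hc, hns, hb⟩ := exists_bad_limit S hS hcrit
    exact unb q c hq hc hns (hF q c hq hc hb)
  have suf : ∀ S : Set ℂ, (∀ z ∈ S, ‖z‖ < 1) →
      (∀ ρ : ℝ, ρ < 1 → ∃ r : ℝ, ρ < r ∧ r < 1 ∧ ∀ ζ ∈ Lim S, (r : ℂ) * ζ ∈ closure S) →
      Crit (Lim S) → Forcing S := by
    intro S hS h hcrit
    refine forcing_of_family S hS ?_
    intro q hq
    obtain ⟨δ, hδ, m, hm⟩ := hcrit q hq
    refine ⟨δ, hδ, m, fun ρ hρ => ?_⟩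
    obtain ⟨r, h1, h2, h3⟩ := h ρ hρ
    refine ⟨r, h1, h2, fun c hfin hlac hex B hB => hm c hfin hlac hex B ?_⟩
    intro ζ hζ
    exact hB ζ ⟨hζ.1, h3 ζ hζ⟩
  refine ⟨nec, fun S hS h => ⟨nec S hS, suf S hS h⟩, ?_, forcing_of_family, forcing_uniform, ?_⟩
  · intro S hS hfin hF
    obtain ⟨c, hc, hns, hM⟩ := exists_bad_discrete S hS hfin 2 one_lt_two
    exact unb 2 c one_lt_two hc hns (hF 2 c one_lt_two hc hM)
  · refine ⟨CE, compact_ce, Set.range_nonempty _, vol_ce, ?_⟩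
    intro S hS h
    refine forcing_uniform S hS ?_
    intro η hη
    obtain ⟨r₀, hr₀, hvp⟩ := vp_ce η hη
    refine ⟨r₀, hr₀, fun ρ hρ => ?_⟩
    obtain ⟨r, h1, h2, h3⟩ := h ρ hρ
    exact ⟨r, h1, h2, CE, Set.range_nonempty _, hvp, h3⟩

end Pool.Agent.Results.MP_c80ac4_an.LimitSet
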