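import Pool.Agent.Helper414.HgA
import Pool.Agent.Helper414.HgSector

set_option autoImplicit false

namespace Pool.Agent.Results.MP_c80ac4_an.StarShaped
open Pool.Agent.Helper414.HG

/-- Three statements on forcing sets for Hadamard gap series.
(1) A non-empty set `S` in the unit disc that is star-shaped with respect to `0` is forcing if and only if
    for every `q > 1` there are `δ > 0` and `m` such that `δ ∑ |c_k| ≤ sup_S |P|` for all `q`-lacunary
    polynomials `P` with all exponents at least `m`.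
(2) If `E` is a subset of the unit circle for which there is a strictly increasing sequence of integers `d j` such
    that `∑ j, |ζ ^ (d j) - 1|` is uniformly bounded for `ζ ∈ E` (a `B₀`-set; all Dirichlet sets are of this type)
    then for every `C` the union of the Stolz angles `‖z - ζ‖ ≤ C (1 - ‖z‖)`, `ζ ∈ E`, is not forcing (and
    neither is any subset of it).
(3) A set in the disc whose closure contains a set `{r e^{iθ} : r₀ < r < 1, α < θ < β}` is forcing. -/
theorem result :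
    (∀ S : Set ℂ, S.Nonempty → (∀ z ∈ S, ‖z‖ < 1) →
      (∀ z ∈ S, ∀ t : ℝ, 0 ≤ t → t ≤ 1 → (t : ℂ) * z ∈ S) → (Forcing S ↔ Crit S)) ∧
    (∀ E : Set ℂ, (∀ ζ ∈ E, ‖ζ‖ = 1) →
      (∃ (d : ℕ → ℕ) (B : ℝ), StrictMono d ∧ ∀ ζ ∈ E, ∀ J : ℕ, ∑ j ∈ Finset.range J, ‖ζ ^ (d j) - 1‖ ≤ B) →
      ∀ C : ℝ, ∀ S : Set ℂ, S ⊆ Stolz E C → ¬ Forcing S) ∧
    (∀ S : Set ℂ, (∀ z ∈ S, ‖z‖ < 1) →
      (∃ r₀ α β : ℝ, r₀ < 1 ∧ α < β ∧ ∀ r θ : ℝ, 0 < r → r₀ < r → r < 1 → α < θ → θ < β →
        (r : ℂ) * Complex.exp ((θ : ℂ) * Complex.I) ∈ closure S) → Forcing S) := by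
  have unb : ∀ (q : ℝ) (c : ℕ → ℂ), 1 < q → IsGap q c → (¬ Summable (fun k => ‖c k‖)) →
      ¬ ∃ M : ℝ, ∀ z : ℂ, ‖z‖ < 1 → ‖F c z‖ ≤ M := by
    rintro q c hq hc hns ⟨M, hM⟩
    obtain ⟨r, θ, h1, h2, _, _, h5⟩ := attains q c hq hc hns ((|M| + 1 : ℝ) : ℂ) 0 1 one_pos
    have h6 := hM ((r : ℂ) * Complex.exp ((θ : ℂ) * Complex.I)) (by
      rw [norm_mul, Complex.norm_exp_ofReal_mul_I, mul_one, Complex.norm_real, Real.norm_of_nonneg h1.le]
      exact h2)
    rw [h5, Complex.norm_real, Real.norm_of_nonneg (by positivity)] at h6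
    linarith [le_abs_self M]
  refine ⟨?_, ?_, ?_⟩
  · intro S hne hS hstar
    constructor
    · intro hF
      by_contra hcrit
      obtain ⟨q, c, hq, hc, hns, hb⟩ := exists_bad_of_not_crit S hne hS hcrit
      exact unb q c hq hc hns (hF q c hq hc ⟨2, hb⟩)
    · intro hcrit q c hq hc ⟨M, hM⟩
      exact bounded_of_summable c (summable_of_crit S hS hstar hcrit q c hq hc M hM)
  · rintro E hE ⟨d, B, hd, hD⟩ C S hSC hF
    obtain ⟨c, hc, hns, M, hM⟩ := exists_bad_stolz E hE d hd B hD C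
    exact unb 2 c one_lt_two hc hns (hF 2 c one_lt_two hc ⟨M, fun z hz => hM z (hSC hz)⟩)
  · rintro S hS ⟨r₀, α, β, hr₀, hαβ, hcl⟩ q c hq hc ⟨M, hM⟩
    by_cases hns : Summable (fun k => ‖c k‖)
    · exact bounded_of_summable c hns
    exfalso
    have hcont := continuousOn_F c hc.conv
    -- bounded on the closure inside the disc
    have hb : ∀ z : ℂ, ‖z‖ < 1 → z ∈ closure S → ‖F c z‖ ≤ M := by
      intro z hz hzc
      have h1 : ContinuousAt (F c) z :=
        (hcont z (by simpa using hz)).continuousAt (Metric.isOpen_ball.mem_nhds (by simpa using hz))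
      have h2 : (nhdsWithin z S).NeBot := mem_closure_iff_nhdsWithin_neBot.1 hzc
      have h3 : Filter.Tendsto (fun w => ‖F c w‖) (nhdsWithin z S) (nhds ‖F c z‖) :=
        (h1.norm).mono_left nhdsWithin_le_nhds
      exact le_of_tendsto h3 (Filter.eventually_of_mem self_mem_nhdsWithin (fun w hw => hM w hw))
    -- bounded on the compact disc of radius r1
    set r1 : ℝ := max r₀ 0 with hr1
    have hr1' : r1 < 1 := max_lt hr₀ one_pos
    have hcomp : IsCompact (Metric.closedBall (0 : ℂ) r1) := isCompact_closedBall 0 r1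
    have hsub : Metric.closedBall (0 : ℂ) r1 ⊆ Metric.ball 0 1 :=
      Metric.closedBall_subset_ball hr1'
    obtain ⟨M', hM'⟩ := hcomp.exists_bound_of_continuousOn (hcont.mono hsub)
    obtain ⟨r, θ, h1, h2, h3, h4, h5⟩ :=
      attains q c hq hc hns ((|M| + |M'| + 1 : ℝ) : ℂ) α β hαβ
    have hn : ‖(r : ℂ) * Complex.exp ((θ : ℂ) * Complex.I)‖ = r := by
      rw [norm_mul, Complex.norm_exp_ofReal_mul_I, mul_one, Complex.norm_real, Real.norm_of_nonneg h1.le]
    have hval : ‖F c ((r : ℂ) * Complex.exp ((θ : ℂ) * Complex.I))‖ = |M| + |M'| + 1 := by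
      rw [h5, Complex.norm_real, Real.norm_of_nonneg (by positivity)]
    rcases le_or_gt r r1 with hle | hgt
    · have := hM' ((r : ℂ) * Complex.exp ((θ : ℂ) * Complex.I)) (by
        rw [mem_closedBall_zero_iff, hn]
        exact hle)
      rw [hval] at this
      linarith [le_abs_self M', abs_nonneg M]
    · have := hb ((r : ℂ) * Complex.exp ((θ : ℂ) * Complex.I)) (by rw [hn]; exact h2)
        (hcl r θ h1 (lt_of_le_of_lt (le_max_left _ _) hgt) h2 h3 h4)
      rw [hval] at this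
      linarith [le_abs_self M, abs_nonneg M']

end Pool.Agent.Results.MP_c80ac4_an.StarShaped
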